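import Pool.Agent.MP_c69980_ag.H43.Spec3

/-!
Row Hat: derivations adapted to the field `F`; logarithmic derivatives.
-/

set_option autoImplicit false

namespace Pool.Agent.MP_c69980_ag.H43

open MvPolynomial H60 Finset

variable {t a M : ℕ} {w : Fin M → Option (Fin t)} {Θ : Pt t a → Fin M → ℂ} {PP : PT M t a}
  {k : Subfield ℂ}

/-- A transcendence basis of `F` over `F₀`. -/
lemma hat_basis (F₀ : Subfield ℂ) (s : Set ℂ) : ∃ I : Set ℂ, I ⊆ s ∧
    AlgebraicIndependent F₀ ((↑) : I → ℂ) ∧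
    ∀ x ∈ s, IsAlgebraic (Subfield.closure (F₀ ∪ I : Set ℂ)) x := by
  obtain ⟨I, hI⟩ := (AlgebraicIndependent.matroid F₀ ℂ).exists_isBasis s
  obtain ⟨h1, h2, h3⟩ := AlgebraicIndependent.matroid_isBasis_iff.1 hI
  refine ⟨I, h2, h1, fun x hx => ?_⟩
  have e : Subfield.closure (F₀ ∪ I : Set ℂ) = (IntermediateField.adjoin F₀ I).toSubfield := by
    rw [IntermediateField.adjoin_toSubfield]
    congr 2
    exact Subtype.range_coe.symm
  have h4 := h3 x hx
  rw [← IntermediateField.isAlgebraic_adjoin_iff] at h4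
  rw [e]
  exact h4

/-- A tangent vector of the locus is determined by its echelon coordinates. -/
lemma hat_zero (h3 : SDep) (G : GD w Θ PP k) {p₀ : Pt t a} {m : ℕ} {J : Fin m → Fin (t + a)}
    {γ : Fin m → Pt t a} {E : Fin m → Der} (T : Tg Θ k p₀ J γ E) {d : Der} {v : Pt t a}
    (hd : Kill k d) (hv : Tan Θ d p₀ v) (hJ : ∀ i, v (J i) = 0) : v = 0 := by
  obtain ⟨c, hc, h⟩ := h3 k m (rat (Θ p₀)) (Fin.cons d E) T.dim fun l => by
    refine Fin.cases ?_ (fun j => ?_) l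
    · exact hd
    · exact T.kill j
  have t1 : Tan Θ (c 0 • d + ∑ j, c j.succ • E j) p₀ (c 0 • v + ∑ j, c j.succ • γ j) :=
    (hv.smul _).add (Tan.sum _ fun j _ => (T.tan j).smul _)
  have t2 : Tan Θ (c 0 • d + ∑ j, c j.succ • E j) p₀ 0 := tan_zero_iff.2 fun x hx => by
    have := h x hx
    rw [Fin.sum_univ_succ] at this
    rw [Derivation.add_apply, der_sum_apply]
    exact this
  have e := G.tan_inj t1 t2
  have e1 : ∀ i : Fin m, c i.succ = 0 := fun i => by
    have := congrFun e (J i)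
    simpa [hJ, T.ech, Finset.sum_apply] using this
  have e0 : c 0 ≠ 0 := fun h0 => hc (funext fun l => Fin.cases h0 e1 l)
  simpa [e1, e0] using e

theorem sHat (h1 : SExt) (h2 : SStab) (h3 : SDep) (h4 : SLd) (h5 : SPres) : SHat := by
  intro t a M w Θ PP k F p₀ n lam δ m J γ E G hkF A hc T
  have hK : FL k (Θ p₀) ≤ FL F (Θ p₀) := FL_le (hkF.trans (le_FL _ _)) (rat_FL _ _)
  have kδ : ∀ l, Kill k (δ l) := fun l => (A.kill l).mono hkF
  have kb : ∀ l j, Kill k ⁅δ l, E j⁆ := fun l j c hc => by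
    rw [Derivation.commutator_apply, T.kill j c hc, kδ l c hc, map_zero, map_zero, sub_zero]
  have tb : ∀ l j, Tan Θ ⁅δ l, E j⁆ p₀ fun i => δ l (γ j i) := fun l j => by
    have := G.br (δ l) (E j) p₀ (lam l) (γ j) (kδ l) (T.kill j) (A.tan l) (T.tan j)
    simpa only [T.kill j _ (A.mem l _), sub_zero] using this
  have z : ∀ l j, (fun i => δ l (γ j i)) = 0 := fun l j =>
    hat_zero h3 G T (kb l j) (tb l j) fun i => by
      rw [T.ech]
      split_ifs <;> simp
  have hF : ∀ x ∈ FL k (Θ p₀), (∀ l, δ l x = 0) → x ∈ F := fun x hx h0 => by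
    rw [← hc]
    exact ⟨hK hx, h0⟩
  refine ⟨fun j i => hF _ (T.mem j i) fun l => congrFun (z l j) i, fun j => ?_⟩
  have kK : ∀ l, Kill (FL k (Θ p₀)) ⁅δ l, E j⁆ := fun l =>
    (h5 t a M w Θ PP k k _ p₀ _ G le_rfl (tb l j)).2.1 (z l j) (kb l j)
  have pE : Pres (E j) (FL k (Θ p₀)) :=
    (h5 t a M w Θ PP k k _ p₀ _ G le_rfl (T.tan j)).1 (T.mem j) fun x hx => by
      rw [T.kill j x hx]; exact zero_mem _
  have pδ : ∀ l, Pres (δ l) (FL k (Θ p₀)) := fun l =>
    (h5 t a M w Θ PP k k _ p₀ _ G le_rfl (A.tan l)).1 (fun i => le_FL _ _ (A.mem l i))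
      fun x hx => by rw [kδ l x hx]; exact zero_mem _
  have p0 : ∀ x ∈ cst (FL k (Θ p₀)) δ, E j x ∈ F := fun x hx => hF _ (pE x hx.1) fun l => by
    have := kK l x hx.1
    rwa [Derivation.commutator_apply, hx.2 l, map_zero, sub_zero] at this
  obtain ⟨I, hIF, hI, halg⟩ := hat_basis (cst (FL k (Θ p₀)) δ) F
  have hI' : AlgebraicIndependent (FL k (Θ p₀)) ((↑) : I → ℂ) :=
    (h4 (Set.range δ) (FL k (Θ p₀)) (cst (FL k (Θ p₀)) δ) (by rintro _ ⟨l, rfl⟩; exact pδ l)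
      (fun x hx => hx.1) (fun x hx h0 => ⟨hx, fun l => h0 _ ⟨l, rfl⟩⟩) I _ hI).1
      (by rintro i _ ⟨l, rfl⟩; exact A.kill l _ (hIF i.2))
  obtain ⟨d, hd, hb⟩ := h1.2 _ I _ hI' fun i => -E j i
  have e : ∀ x ∈ FL k (Θ p₀), (E j + d) x = E j x := fun x hx => by
    rw [Derivation.add_apply, hd x hx, add_zero]
  refine ⟨E j + d, e, fun x hx => (h2 (E j + d)).1 (cst (FL k (Θ p₀)) δ ∪ I) F ?_ ?_ x hx
    (halg x hx)⟩
  · exact Set.union_subset (fun x hx => hF x hx.1 hx.2) hIF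
  · rintro x (hx | hx)
    · rw [e x hx.1]
      exact p0 x hx
    · rw [Derivation.add_apply, hb ⟨x, hx⟩, add_neg_cancel]
      exact zero_mem _

/-- The fraction field of a simple differential ring with logarithmic derivatives in `V` lies
in `V`. -/
lemma hat_val {F : Subfield ℂ} {D : Der} {ι : Type} {x : ι → ℂ} (V : ValuationSubring ℂ)
    (hS : Simple (RA F x) {D}) (hV : ∀ u ∈ RA F x, u ∈ V) (hD : ∀ u ∈ RA F x, D u / u ∈ V) :
    ∀ u ∈ Subfield.closure (F ∪ Set.range x : Set ℂ), u ∈ V := by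
  let f : RA F x →+* V := (RA F x).val.toRingHom.codRestrict V fun u => hV u u.2
  have hf : ∀ u, (f u : ℂ) = u := fun _ => rfl
  have hI := hS ((IsLocalRing.maximalIdeal V).comap f) (by
    rintro _ rfl u hu y hy
    rw [Ideal.mem_comap] at hu ⊢
    by_cases h0 : (u : ℂ) = 0
    · have : f y = 0 := Subtype.ext (by rw [hf, hy, h0, map_zero]; rfl)
      rw [this]
      exact zero_mem _
    · have : f y = f u * ⟨_, hD u u.2⟩ := Subtype.ext (by
        change (y : ℂ) = u * (_ / u)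
        rw [hy, mul_div_cancel₀ _ h0])
      rw [this]
      exact Ideal.mul_mem_right _ _ hu)
  have hb := hI.resolve_right (Ideal.comap_ne_top f (IsLocalRing.maximalIdeal.isMaximal V).ne_top)
  have hinv : ∀ u ∈ RA F x, u⁻¹ ∈ V := fun u hu => by
    by_cases h0 : u = 0
    · rw [h0, inv_zero]
      exact zero_mem _
    · have h1 : f ⟨u, hu⟩ ∉ IsLocalRing.maximalIdeal V := fun h => by
        rw [← Ideal.mem_comap, hb, Ideal.mem_bot] at h
        exact h0 (congrArg Subtype.val h)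
      obtain ⟨g, hg⟩ := (IsLocalRing.notMem_maximalIdeal.1 h1).exists_right_inv
      have h2 : u * g = 1 := congrArg Subtype.val hg
      rw [← eq_inv_of_mul_eq_one_right h2]
      exact g.2
  have hle : Subring.closure (F ∪ Set.range x : Set ℂ) ≤ (RA F x).toSubring :=
    Subring.closure_le.2 (Set.union_subset (fun c hc => (RA F x).algebraMap_mem ⟨c, hc⟩)
      (by rintro _ ⟨i, rfl⟩; exact gen_mem x i))
  intro u hu
  obtain ⟨y, hy, z, hz, rfl⟩ := Subfield.mem_closure_iff.1 hu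
  rw [div_eq_mul_inv]
  exact mul_mem (hV y (hle hy)) (hinv z (hle hz))

theorem sO2 (h1 : SStab) (h2 : SLog) (h3 : SPres) : SO2 := by
  intro t a M w Θ PP k F D E p₀ g v β V G c hβ hS hv tE pE hV
  set N := Subfield.closure (F ∪ Set.range (xc w β (Θ p₀)) : Set ℂ) with hN
  have hFN : F ≤ N := fun x hx => Subfield.subset_closure (Or.inl hx)
  have hxN : ∀ i, xc w β (Θ p₀) i ∈ N := fun i => Subfield.subset_closure (Or.inr ⟨i, rfl⟩)
  have hRN := RA_le_field hFN hxN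
  have hNK : N ≤ FL F (Θ p₀) := Subfield.closure_le.2 (Set.union_subset (le_FL _ _)
    (by rintro _ ⟨i, rfl⟩; exact rat_FL _ _ (xc_mem w β _ i)))
  have hlog : ∀ x ∈ FL F (Θ p₀), D x / x ∈ V := fun x hx =>
    hV _ (Subring.subset_closure (Or.inr ⟨x, hx, rfl⟩))
  have hNV : ∀ x ∈ N, x ∈ V := hat_val V hS
    (fun u hu => hV u (RA_le (fun _ h => Subring.subset_closure (Or.inl (Or.inl h)))
      (fun i => Subring.subset_closure (Or.inl (Or.inr ⟨i, rfl⟩))) u hu))
    fun u hu => hlog u (hNK (hRN u hu))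
  have hη : ∀ o, eta β (Θ p₀) o ≠ 0 := fun o => div_ne_zero (hβ o).2 (hβ none).2
  have pN : ∀ (D' : Der) (v' : Pt t a), (∀ i, v' i ∈ F) → Tan Θ D' p₀ v' → Pres D' F →
      Pres D' N ∧ ∀ o, D' (eta β (Θ p₀) o) / eta β (Θ p₀) o ∈ N := fun D' v' hv' t' p' => by
    refine ⟨fun x hx => (h1 D').1 _ N Subfield.subset_closure ?_ x hx
      (isAlgebraic_algebraMap (⟨x, hx⟩ : N)), fun o => ?_⟩
    · rintro x (hx | ⟨i, rfl⟩)
      · exact hFN (p' x hx)
      · exact hRN _ (((h3 t a M w Θ PP k F D' p₀ v' G c.le t').2.2 hv' p' β hβ).2 _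
          (gen_mem _ i))
    · rw [(G.tanA β D' p₀ v' hβ t').2 o, mul_div_cancel_left₀ _ (hη o)]
      exact hRN _ (vf_mem (G.cf β) c.le hv' _ _)
  have e1 : Subfield.closure (N ∪ Set.range (eta β (Θ p₀)) : Set ℂ) ≤ FL F (Θ p₀) :=
    Subfield.closure_le.2 (Set.union_subset hNK
      (by rintro _ ⟨o, rfl⟩; exact rat_FL _ _ ⟨_, _, rfl⟩))
  have e2 : FL F (Θ p₀) ≤ Subfield.closure (N ∪ Set.range (eta β (Θ p₀)) : Set ℂ) := by
    have q : ∀ b, co β (Θ p₀) (b, none) ∈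
        Subfield.closure (N ∪ Set.range (eta β (Θ p₀)) : Set ℂ) := fun b => by
      have : co β (Θ p₀) (b, none) = xc w β (Θ p₀) (b, none) * eta β (Θ p₀) (w b) := by
        simp only [co, xc, eta]
        rw [div_mul_div_cancel₀ (hβ _).2]
      rw [this]
      exact mul_mem (Subfield.subset_closure (Or.inl (hxN _)))
        (Subfield.subset_closure (Or.inr ⟨_, rfl⟩))
    refine FL_le (fun x hx => Subfield.subset_closure (Or.inl (hFN hx))) ?_
    rintro _ ⟨b, b', rfl⟩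
    rw [div_eq_co hβ]
    exact div_mem (q b) (q b')
  have pD := pN D g c.mem c.tan c.pres
  have pE' := pN E v hv tE pE
  intro x hx
  exact h2 D E N _ (eta β (Θ p₀)) V pD.1 pE'.1 (fun x hx h0 => hFN (c.const x (e1 hx) h0))
    (fun o => ⟨hη o, pD.2 o, pE'.2 o⟩) hNV
    (fun x hx => hlog x (e1 hx)) x (e2 hx)

end Pool.Agent.MP_c69980_ag.H43

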