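import Pool.Agent.MP_c69980_ag.H43.Spec5

/-!
Row Prim: the prime divisors of `q` in a chart.
-/

set_option autoImplicit false

namespace Pool.Agent.MP_c69980_ag.H43

open MvPolynomial H60 Finset Metric

section
variable {ι K : Type} [Field K] [Algebra ℂ K] {v : ι → K} {q : MvPolynomial ι ℂ}

/-- The ideal of the divisor of `q`. -/
noncomputable def primI (v : ι → K) (q : MvPolynomial ι ℂ) : Ideal (MvPolynomial ι ℂ) :=
  RingHom.ker (aeval v : MvPolynomial ι ℂ →ₐ[ℂ] K) ⊔ Ideal.span {q}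

lemma prim_ker {p : Ideal (MvPolynomial ι ℂ)} (hp : p ∈ (primI v q).minimalPrimes) :
    RingHom.ker (aeval v : MvPolynomial ι ℂ →ₐ[ℂ] K) ≤ p := le_sup_left.trans hp.1.2

lemma prim_q {p : Ideal (MvPolynomial ι ℂ)} (hp : p ∈ (primI v q).minimalPrimes) : q ∈ p :=
  (le_sup_right.trans hp.1.2 : Ideal.span {q} ≤ p) (Ideal.mem_span_singleton_self q)

/-- A point of the divisor lies on a component. -/
lemma prim_min {y : ι → ℂ} (h1 : ∀ P : MvPolynomial ι ℂ, aeval v P = 0 → eval y P = 0)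
    (h2 : eval y q = 0) : ∃ p ∈ (primI v q).minimalPrimes, ∀ P ∈ p, eval y P = 0 := by
  have := RingHom.ker_isPrime (eval y)
  exact Ideal.exists_minimalPrimes_le (J := RingHom.ker (eval y))
    (sup_le h1 ((Ideal.span_singleton_le_iff_mem _).2 h2))

/-- An element outside `p` that vanishes on the other components. -/
lemma prim_sep [Finite ι] {p : Ideal (MvPolynomial ι ℂ)} (hp : p ∈ (primI v q).minimalPrimes) :
    ∃ e ∉ p, ∀ p' ∈ (primI v q).minimalPrimes, p' ≠ p → e ∈ p' := by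
  classical
  have hf := (primI v q).finite_minimalPrimes_of_isNoetherianRing
  have := hp.1.1
  have h : ∀ p', ∃ e ∉ p, p' ∈ (primI v q).minimalPrimes → p' ≠ p → e ∈ p' := fun p' => by
    by_cases h : p' ≤ p
    · exact ⟨1, (Ideal.ne_top_iff_one _).1 this.ne_top, fun a b =>
        absurd (le_antisymm h (hp.2 a.1 h)) b⟩
    · obtain ⟨e, h1, h2⟩ := SetLike.not_le_iff_exists.1 h
      exact ⟨e, h2, fun _ _ => h1⟩
  choose e h1 h2 using h
  refine ⟨∏ p' ∈ hf.toFinset, e p', fun h => ?_, fun p' a b => ?_⟩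
  · obtain ⟨p', -, h⟩ := Ideal.IsPrime.prod_mem_iff.1 h
    exact h1 p' h
  · exact Ideal.mem_of_dvd _ (dvd_prod_of_mem e (hf.mem_toFinset.2 a)) (h2 p' a b)

/-- A proper closed subset of a component has codimension two. -/
lemma prim_dim (h4 : SKei) {r : ℕ} (hd : Algebra.trdeg ℂ K = (r + 1 : ℕ)) (hq : aeval v q ≠ 0)
    {p : Ideal (MvPolynomial ι ℂ)} (hp : p ∈ (primI v q).minimalPrimes) {f : MvPolynomial ι ℂ}
    (hf : f ∉ p) (y' : Fin r → ι) :
    ∃ H : MvPolynomial (Fin r) ℂ, H ≠ 0 ∧ rename y' H ∈ p ⊔ Ideal.span {f} := by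
  by_contra hn
  push Not at hn
  obtain ⟨𝔮, -, a2, a3⟩ := (p ⊔ Ideal.span {f}).exists_le_prime_disjoint
    ((nonZeroDivisors (MvPolynomial (Fin r) ℂ)).map (rename y' : _ →ₐ[ℂ] MvPolynomial ι ℂ))
    (Set.disjoint_left.2 (by
      rintro _ h ⟨H, hH, rfl⟩
      exact hn H (nonZeroDivisors.ne_zero hH) h))
  have b1 := h4.2 ℂ _ p 𝔮 hp.1.1 (le_sup_left.trans a2) r (X ∘ y') (fun H hH => by
    by_contra h0
    exact Set.disjoint_left.1 a3 hH ⟨H, mem_nonZeroDivisors_of_ne_zero h0, by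
      rw [rename_eq_aeval]⟩)
    f ((le_sup_right.trans a2 : Ideal.span {f} ≤ 𝔮) (Ideal.mem_span_singleton_self f)) hf
  have b2 := h4.2 ℂ _ _ p (RingHom.ker_isPrime _) (prim_ker hp) _ _ b1 q (prim_q hp) hq
  have b3 : AlgebraicIndependent ℂ fun i : Fin (r + 1 + 1) =>
      aeval v ((Fin.cons q (Fin.cons f (X ∘ y')) : Fin (r + 1 + 1) → MvPolynomial ι ℂ) i) :=
    algebraicIndependent_iff.2 fun H hH => b2 H (by
      rw [RingHom.mem_ker, comp_aeval_apply]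
      exact hH)
  have b4 := b3.cardinalMk_le_trdeg
  rw [hd, Cardinal.mk_fin, Nat.cast_le] at b4
  omega

end

section
variable {t a M n : ℕ} {w : Fin M → Option (Fin t)} {Θ : Pt t a → Fin M → ℂ} {PP : PT M t a}
  {K : Type} [Field K] [Algebra ℂ K] {U : Set (PS n)} {z : Fin n → K} {u : Fin M → K} {m : ℕ}
  {J : Fin m → Fin (t + a)} {γ : Fin m → Fin (t + a) → K} {E : Fin m → Derivation ℂ K K}
  {β : Cht M t} {q : CP M t} {Γ : Fin M → K}

/-- The data attached to a good component. -/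
lemma prim_good (h1 : SArc) (h2 : SUnr) (h3 : SPf) (g : Ev (GD w Θ PP)) (hM : Mp w Θ U z u)
    (tk : TK w PP u J γ E) (hβ : Ch w β u) (hq : aeval (co β u) q ≠ 0)
    (hΓ : ∀ V : ValuationSubring K, (∀ c, algebraMap ℂ K c ∈ V) → Cen U z V →
      (∀ j, ∀ f ∈ V, E j f ∈ V) → ∀ c, Γ c ∈ V)
    {p : Ideal (CP M t)} (hp : p ∈ (primI (co β u) q).minimalPrimes) {b : CP M t} (hb : b ∉ p)
    (hγ : ∀ j i, ∃ c : CP M t, aeval (co β u) b * γ j i = aeval (co β u) c)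
    {y' : Fin (m - 1) → CI M t} (hy : ∀ H, rename y' H ∈ p → H = 0) :
    ∃ (f : CP M t × CP M t) (Q : PR n) (e : ℕ), Q.IsHomogeneous e ∧ aeval z Q ≠ 0 ∧ f.2 ∉ p ∧
      (∃ (l : Fin m) (N b Ψ : CP M t), f.2 = Ψ * N ∧
        aeval (co β u) N = aeval (co β u) b * E l (aeval (co β u) f.1)) ∧
      ∀ R x ζ, Dk U 0 R x → ζ ∈ ball (0 : ℂ) R → eval (x 0) Q ≠ 0 →
        (∀ i, Reg z (x ζ) (co β u i)) → vl z (aeval (co β u) q) (x ζ) = 0 →
        vl z (aeval (co β u) f.2) (x ζ) ≠ 0 → vl z (aeval (co β u) f.1) (x ζ) = 0 ∧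
          (od z x ζ (aeval (co β u) f.1) = 1 → ∀ c, 0 ≤ od z x ζ (Γ c)) := by
  have pr := hp.1.1
  obtain ⟨F, hF, l, N, hN, e1⟩ := h3 t a M n w Θ PP K U z u m J γ E β p b g hM tk hβ pr
    (fun P h => prim_ker hp h) ⟨q, prim_q hp, hq⟩ hb hγ
  have hm : m - 1 + 1 = m := Nat.sub_add_cancel l.pos
  have F0 : aeval (co β u) F ≠ 0 := fun h => hN (prim_ker hp (by
    rw [RingHom.mem_ker, e1, h, map_zero, mul_zero]))
  have key := fun c => h1 n K U z _ (co β u) p F (Γ c) hM.var hM.gen pr fun V a1 a2 a3 a4 a5 => by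
    refine hΓ V (fun c => by simpa using a2 (C c)) a1 (fun j => ?_) c
    refine h2 n (m - 1) K U z _ (co β u) p F y' V (E j) hM.gen (by rw [hm, tk.deg]) hy F0 a2 a3 a4
      a5 fun i => ?_
    rw [tk.act β hβ]
    refine sum_mem fun i' _ => mul_mem ?_ (a2 _)
    obtain ⟨c', hc⟩ := hγ j i'
    have := (V.valuation_le_one_iff _).2 (a2 c')
    rwa [← hc, map_mul, a3 b hb, one_mul, V.valuation_le_one_iff] at this
  choose Ψ Q e k1 k2 k3 k4 using key
  obtain ⟨ε, s1, s2⟩ := prim_sep hp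
  refine ⟨(F, ((∏ c, Ψ c) * ε) * N), ∏ c, Q c, _, IsHomogeneous.prod _ _ _ fun c _ => k2 c, ?_,
    fun h => ?_, ⟨l, N, b, _, rfl, e1⟩, fun R x ζ b1 b2 b3 b4 b5 b6 => ?_⟩
  · rw [map_prod]
    exact prod_ne_zero_iff.2 fun c _ => k3 c
  · rcases pr.mem_or_mem h with h | h
    · rcases pr.mem_or_mem h with h | h
      · obtain ⟨c, -, h⟩ := Ideal.IsPrime.prod_mem_iff.1 h
        exact k1 c h
      · exact s1 h
    · exact hN h
  · have ev := fun P => (vl_aeval (Cone.on hM.gen (b1.2 ζ b2)) b4 P).2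
    rw [ev] at b5 b6
    simp only [map_mul, map_prod, ne_eq, mul_eq_zero, not_or, prod_eq_zero_iff, mem_univ, true_and,
      not_exists] at b6
    obtain ⟨p', c1, c2⟩ := prim_min (v := co β u) (q := q)
      (y := fun i => vl z (co β u i) (x ζ)) (fun P h => by
        rw [← ev, h, ← map_zero (aeval (co β u) : CP M t →ₐ[ℂ] K), ev, map_zero]) b5
    obtain rfl : p' = p := by_contra fun h => b6.1.2 (c2 _ (s2 p' c1 h))
    rw [map_prod] at b3
    exact ⟨(ev F).trans (c2 F hF), fun h c => k4 c R x ζ b1 b2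
      (prod_ne_zero_iff.1 b3 c (mem_univ c)) b4 h (ev _ ▸ b6.1.1 c)⟩

end

theorem sPrim (h1 : SArc) (h2 : SUnr) (h3 : SPf) (h4 : SKei) : SPrim := by
  intro t a M n w Θ PP K _ _ U z u m J γ E β q Γ g hM tk hβ hq hΓ
  classical
  have hf := (primI (co β u) q).finite_minimalPrimes_of_isNoetherianRing
  let T := {p ∈ hf.toFinset | (∃ b ∉ p, ∀ j i, ∃ c : CP M t,
    aeval (co β u) b * γ j i = aeval (co β u) c) ∧
    ∃ y' : Fin (m - 1) → CI M t, ∀ H, rename y' H ∈ p → H = 0}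
  have key := fun p : T => prim_good h1 h2 h3 g hM tk hβ hq hΓ
    (hf.mem_toFinset.1 (mem_filter.1 p.2).1) (mem_filter.1 p.2).2.1.choose_spec.1
    (mem_filter.1 p.2).2.1.choose_spec.2 (mem_filter.1 p.2).2.2.choose_spec
  choose f Q e k1 k2 k3 k4 k5 using key
  refine ⟨univ.image f, ∏ p, Q p, _, IsHomogeneous.prod _ _ _ fun p _ => k1 p, ?_, ?_,
    fun y' => ?_, fun R x ζ b1 b2 b3 b4 b5 => ?_⟩
  · rw [map_prod]
    exact prod_ne_zero_iff.2 fun p _ => k2 p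
  · intro f' hf'
    obtain ⟨p, -, rfl⟩ := mem_image.1 hf'
    exact k4 p
  · have hH : ∀ p, ∃ H : MvPolynomial (Fin (m - 1)) ℂ, H ≠ 0 ∧
        (p ∈ (primI (co β u) q).minimalPrimes → ∀ y : CI M t → ℂ, (∀ P ∈ p, eval y P = 0) →
          (∃ b : CP M t, eval y b ≠ 0 ∧ ∀ j i, ∃ c : CP M t,
            aeval (co β u) b * γ j i = aeval (co β u) c) →
          (∀ f' ∈ univ.image f, eval y f'.2 = 0) → eval (y ∘ y') H = 0) := fun p => by
      by_cases c1 : ∀ H : MvPolynomial (Fin (m - 1)) ℂ, rename y' H ∈ p → H = 0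
      · by_cases c2 : p ∈ T
        · obtain ⟨l, -⟩ := k4 ⟨p, c2⟩
          obtain ⟨H, d1, d2⟩ := prim_dim h4 (r := m - 1)
            (by rw [Nat.sub_add_cancel l.pos, tk.deg]) hq
            (hf.mem_toFinset.1 (mem_filter.1 c2).1) (k3 ⟨p, c2⟩) y'
          refine ⟨H, d1, fun _ y d3 _ d4 => ?_⟩
          rw [← eval_rename]
          exact (sup_le d3 ((Ideal.span_singleton_le_iff_mem _).2
            (d4 _ (mem_image_of_mem f (mem_univ _)))) : _ ≤ RingHom.ker (eval y)) d2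
        · refine ⟨1, one_ne_zero, fun d1 y d2 ⟨b, d3, d4⟩ _ => absurd ?_ c2⟩
          exact mem_filter.2 ⟨hf.mem_toFinset.2 d1, ⟨b, fun h => d3 (d2 b h), d4⟩, y', c1⟩
      · push Not at c1
        obtain ⟨H, d1, d2⟩ := c1
        exact ⟨H, d2, fun _ y d3 _ _ => by rw [← eval_rename]; exact d3 _ d1⟩
    choose H d1 d2 using hH
    refine ⟨∏ p ∈ hf.toFinset, H p, prod_ne_zero_iff.2 fun p _ => d1 p, fun y a1 a2 a3 a4 => ?_⟩
    obtain ⟨p, c1, c2⟩ := prim_min a1 a2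
    rw [map_prod]
    exact prod_eq_zero (hf.mem_toFinset.2 c1) (d2 p c1 y c2 a3 a4)
  · intro f' hf'
    obtain ⟨p, -, rfl⟩ := mem_image.1 hf'
    rw [map_prod] at b3
    exact k5 p R x ζ b1 b2 (prod_ne_zero_iff.1 b3 p (mem_univ p)) b4 b5

end Pool.Agent.MP_c69980_ag.H43

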