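import Pool.Agent.MP_c69980_ag.H43.Spec9

/-!
The structure of a valuation ring whose centre on the generic leaf is a divisor.
-/

set_option autoImplicit false

namespace Pool.Agent.MP_c69980_ag.H43

open MvPolynomial H60 Finset

section
variable {F K : Type} [Field F] [Field K] [Algebra F K] (V : ValuationSubring K) {σ ι : Type}

lemma DvS_dec (i₀ : σ) (s : ι → σ) (h : ∀ i, i = i₀ ∨ ∃ j, i = s j) (P : MvPolynomial σ F) :
    ∃ Q P₀, P = X i₀ * Q + rename s P₀ := by
  induction P using MvPolynomial.induction_on with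
  | C c => exact ⟨0, C c, by simp⟩
  | add p q hp hq =>
    obtain ⟨Q, P₀, rfl⟩ := hp
    obtain ⟨Q', P₁, rfl⟩ := hq
    exact ⟨Q + Q', P₀ + P₁, by rw [map_add]; ring⟩
  | mul_X p i hp =>
    rcases h i with rfl | ⟨j, rfl⟩
    · exact ⟨p, 0, by simp [mul_comm]⟩
    · obtain ⟨Q, P₀, rfl⟩ := hp
      exact ⟨Q * X (s j), P₀ * X j, by rw [map_mul, rename_X]; ring⟩

lemma DvS_mem (hF : ∀ c, algebraMap F K c ∈ V) {x : σ → K} (hx : ∀ i, x i ∈ V)
    (P : MvPolynomial σ F) : aeval x P ∈ V := by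
  induction P using MvPolynomial.induction_on with
  | C c => rw [aeval_C]; exact hF c
  | add p q hp hq => rw [map_add]; exact add_mem hp hq
  | mul_X p i hp => rw [map_mul, aeval_X]; exact mul_mem hp (hx i)

lemma DvS_red (hF : ∀ c, algebraMap F K c ∈ V) {x : σ → K} (hx : ∀ i, x i ∈ V) (i₀ : σ)
    (s : ι → σ) (h : ∀ i, i = i₀ ∨ ∃ j, i = s j) (h0 : V.valuation (x i₀) < 1)
    {P : MvPolynomial σ F} (hP : ¬ X i₀ ∣ P) (h1 : V.valuation (aeval x P) < 1) :
    ∃ P₀ : MvPolynomial ι F, P₀ ≠ 0 ∧ V.valuation (aeval (x ∘ s) P₀) < 1 := by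
  obtain ⟨Q, P₀, rfl⟩ := DvS_dec i₀ s h P
  refine ⟨P₀, fun e => hP (by simp [e]), ?_⟩
  have h2 : V.valuation (x i₀ * aeval x Q) < 1 := by
    rw [map_mul]
    exact mul_lt_one_of_lt_of_le h0 ((V.valuation_le_one_iff _).2 (DvS_mem V hF hx Q))
  have := V.valuation.map_sub_lt h1 h2
  rwa [map_add, map_mul, aeval_X, add_sub_cancel_left, aeval_rename] at this

lemma DvS_dep (hF : ∀ c, algebraMap F K c ∈ V) {x : σ → K} (hx : ∀ i, x i ∈ V) (i₀ : σ)
    (s : ι → σ) (h : ∀ i, i = i₀ ∨ ∃ j, i = s j) (h0 : V.valuation (x i₀) < 1) (h1 : x i₀ ≠ 0)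
    (h2 : ¬ AlgebraicIndependent F x) :
    ∃ P₀ : MvPolynomial ι F, P₀ ≠ 0 ∧ V.valuation (aeval (x ∘ s) P₀) < 1 := by
  rw [algebraicIndependent_iff] at h2
  push Not at h2
  obtain ⟨P, h3, h4⟩ := h2
  obtain ⟨n, Q, h5, rfl⟩ := WfDvdMonoid.max_power_factor h4 (X_prime (i := i₀)).irreducible
  rw [map_mul, map_pow, aeval_X] at h3
  exact DvS_red V hF hx i₀ s h h0 h5
    (by simp [(mul_eq_zero.1 h3).resolve_left (pow_ne_zero _ h1)])

lemma DvS_mul (E : Derivation F K K) {x y : K} (hx : x ≠ 0) (hy : y ≠ 0) :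
    E (x * y) / (x * y) = E x / x + E y / y := by
  rw [E.leibniz, smul_eq_mul, smul_eq_mul]
  field_simp
  ring

lemma DvS_pow (E : Derivation F K K) {x : K} (hx : x ≠ 0) (n : ℕ) :
    E (x ^ n) / x ^ n = n * (E x / x) := by
  induction n with
  | zero => simp
  | succ n ih => rw [pow_succ, DvS_mul E (pow_ne_zero _ hx) hx, ih]; push_cast; ring

lemma DvS_inv (E : Derivation F K K) (x : K) : E x⁻¹ / x⁻¹ = -(E x / x) := by
  by_cases hx : x = 0
  · simp [hx]
  rw [E.leibniz_inv, smul_eq_mul]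
  field_simp

lemma DvS_rat (hF : ∀ c, algebraMap F K c ∈ V) {z : σ → K} (hz : ∀ i, z i ∈ V) (i₀ : σ)
    (h0 : z i₀ ≠ 0) (hv : ∀ P : MvPolynomial σ F, ¬ X i₀ ∣ P → V.valuation (aeval z P) = 1)
    (E : Derivation F K K) (h1 : ∀ i, E (z i) ∈ V) (h2 : E (z i₀) / z i₀ ∈ V) :
    ∀ x ∈ IntermediateField.adjoin F (Set.range z), E x / x ∈ V := by
  have a1 : ∀ P : MvPolynomial σ F, E (aeval z P) ∈ V := fun P => by
    induction P using MvPolynomial.induction_on with
    | C c => rw [aeval_C, E.map_algebraMap]; exact zero_mem _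
    | add p q hp hq => rw [map_add, map_add]; exact add_mem hp hq
    | mul_X p i hp =>
      rw [map_mul, aeval_X, E.leibniz, smul_eq_mul, smul_eq_mul]
      exact add_mem (mul_mem (DvS_mem V hF hz p) (h1 i)) (mul_mem (hz i) hp)
  have a2 : ∀ P : MvPolynomial σ F, E (aeval z P) / aeval z P ∈ V := fun P => by
    by_cases hP : P = 0
    · simp [hP]
    obtain ⟨n, Q, h5, rfl⟩ := WfDvdMonoid.max_power_factor hP (X_prime (i := i₀)).irreducible
    have h6 := hv Q h5
    rw [map_mul, map_pow, aeval_X, DvS_mul E (pow_ne_zero _ h0) fun e => by simp [e] at h6,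
      DvS_pow E h0]
    refine add_mem (mul_mem (natCast_mem _ _) h2) ?_
    rw [← V.valuation_le_one_iff, map_div₀, h6, div_one, V.valuation_le_one_iff]
    exact a1 Q
  intro x hx
  obtain ⟨P, Q, rfl⟩ := (IntermediateField.mem_adjoin_range_iff F z x).1 hx
  by_cases hP : aeval z P = 0
  · simp [hP]
  by_cases hQ : aeval z Q = 0
  · simp [hQ]
  rw [div_eq_mul_inv (aeval z P), DvS_mul E hP (inv_ne_zero hQ), DvS_inv]
  exact add_mem (a2 P) (neg_mem (a2 Q))

lemma DvS_opt {y : ι → K} (h : K) (P : MvPolynomial (Option ι) F) :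
    aeval (fun o : Option ι => o.elim h y) P =
      Polynomial.eval₂ (aeval y : MvPolynomial ι F →ₐ[F] K).toRingHom h
        (optionEquivLeft F ι P) := by
  induction P using MvPolynomial.induction_on with
  | C c => simp [optionEquivLeft_C]
  | add p q hp hq => rw [map_add, map_add, Polynomial.eval₂_add, hp, hq]
  | mul_X p i hp =>
    rw [map_mul, map_mul, Polynomial.eval₂_mul, hp]
    cases i <;> simp [optionEquivLeft_X_none, optionEquivLeft_X_some]

variable [Algebra ℂ K]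

lemma DvS_ext (L : Type) [Field L] [Algebra K L] [Algebra ℂ L] [IsScalarTower ℂ K L]
    [Algebra.IsAlgebraic K L] (E : Derivation ℂ K K) :
    ∃ E' : Derivation ℂ L L, ∀ x, E' (algebraMap K L x) = algebraMap K L (E x) := by
  obtain ⟨s, hs⟩ := exists_isTranscendenceBasis ℂ K
  obtain ⟨E', hE'⟩ := der_exists (M := L) (hs.algebraMap_comp (A := L))
    fun i => algebraMap K L (E i)
  have : E'.compAlgebraMap K = (Algebra.linearMap K L).compDer E := der_ext hs hE'
  exact ⟨E', fun x => congrArg (fun D : Derivation ℂ K L => D x) this⟩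

lemma DvS_log (h : STame) (hC : ∀ c, algebraMap ℂ K c ∈ V) (E : Derivation ℂ K K)
    (L : IntermediateField F K) [Algebra.IsAlgebraic L K] (hE : ∀ x ∈ L, E x / x ∈ V) (x : K) :
    E x / x ∈ V := by
  let Kb := AlgebraicClosure K
  obtain ⟨Eb, hEb⟩ := DvS_ext Kb E
  obtain ⟨A, h1, h2⟩ := IsLocalRing.exists_factor_valuationRing ((algebraMap K Kb).comp V.subtype)
  have h3 : ∀ g, algebraMap K Kb g ∈ A → g ∈ V := fun g hg => by
    refine (V.mem_or_inv_mem g).elim id fun h4 => ?_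
    by_cases g0 : g = 0
    · exact g0 ▸ zero_mem V
    have := (V.valuation_eq_one_iff _).1 (h2.map_nonunit ⟨g⁻¹, h4⟩
      (IsUnit.of_mul_eq_one ⟨_, hg⟩ (Subtype.ext (by simp [g0]))))
    rw [← V.valuation_le_one_iff, ← inv_inv g, map_inv₀, this, inv_one]
  let L' : Subfield Kb := L.toSubfield.map (algebraMap K Kb)
  refine h3 _ ?_
  rw [map_div₀, ← hEb]
  refine h Kb A Eb L' (fun c => ?_) ?_ _
    ((Algebra.IsAlgebraic.isAlgebraic (R := L) x).ringHom_of_comp_eq
      ((algebraMap L Kb).codRestrict L' fun y => ⟨y, y.2, rfl⟩) (algebraMap K Kb)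
      (RingHom.injective _) rfl)
  · rw [IsScalarTower.algebraMap_apply ℂ K Kb]
    exact h1 ⟨_, hC c⟩
  · rintro _ ⟨φ, hφ, rfl⟩
    rw [hEb, ← map_div₀]
    exact h1 ⟨_, hE φ hφ⟩

omit [Algebra ℂ K] in
lemma DvS_small {g x : K} (a1 : g / x ∈ V) (a2 : x ≠ 0) (a3 : V.valuation x < 1) :
    V.valuation g < 1 := by
  rw [← mul_div_cancel₀ g a2, map_mul]
  exact mul_lt_one_of_lt_of_le a3 ((V.valuation_le_one_iff _).2 a1)

lemma DvS_exp [CharZero F] [Fintype σ] [DecidableEq σ] {z : σ → K} (tb : IsTranscendenceBasis F z)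
    (e : σ → Derivation F K K) (he : ∀ i j, e i (z j) = (Pi.single i 1 : σ → K) j)
    (δ : Derivation ℂ K K) (hδ : ∀ c : F, δ (algebraMap F K c) = 0) (x : K) :
    δ x = ∑ i, δ (z i) * e i x := by
  let D : Derivation F K K := Derivation.mk'
    { toFun := δ
      map_add' := map_add δ
      map_smul' := fun c x => by simp [Algebra.smul_def, hδ] } δ.leibniz
  have a1 : ∀ x, (∑ i, δ (z i) • e i) x = ∑ i, δ (z i) * e i x := fun x => by
    have := congrFun (map_sum Derivation.coeFnAddMonoidHom (fun i => δ (z i) • e i) univ) x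
    rwa [Finset.sum_apply] at this
  have a2 : D = ∑ i, δ (z i) • e i := der_ext tb fun j => by
    rw [a1]
    simp [he, Pi.single_apply, D]
  exact (congrArg (fun D : Derivation F K K => D x) a2).trans (a1 x)

lemma DvS_res (hC : ∀ c, algebraMap ℂ K c ∈ V) (hF : ∀ c, algebraMap F K c ∈ V) {y : ι → K}
    (hy : ∀ i, y i ∈ V) (res : ∀ P : MvPolynomial ι F, P ≠ 0 → V.valuation (aeval y P) = 1)
    (E : Derivation ℂ K K) (h1 : ∀ c : F, E (algebraMap F K c) = 0) (h2 : ∀ i, E (y i) = 0)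
    (log : ∀ x, E x / x ∈ V) {h : K} (hh : h ∈ V) {P : MvPolynomial (Option ι) F} (a1 : P ≠ 0)
    (a2 : V.valuation (aeval (fun o : Option ι => o.elim h y) P) < 1) :
    V.valuation (E h) < 1 := by
  rw [DvS_opt, Polynomial.eval₂_eq_sum_range] at a2
  have a3 : ∀ P : MvPolynomial ι F, E (aeval y P) = 0 := fun P => by
    induction P using MvPolynomial.induction_on with
    | C c => rw [aeval_C, h1]
    | add p q hp hq => rw [map_add, map_add, hp, hq, add_zero]
    | mul_X p i hp => simp [hp, h2]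
  have := res_kill V hC E (c := 1) hh ?_ (fun g hg => ?_) _
    (fun i => aeval y ((optionEquivLeft F ι P).coeff i))
    (fun i => ⟨DvS_mem V hF hy _, by simp [a3]⟩) (res _ (Polynomial.leadingCoeff_ne_zero.2
      ((optionEquivLeft F ι).map_ne_zero_iff.2 a1))) a2
  · rwa [one_mul] at this
  · by_cases h0 : h = 0
    · simp [h0]
    · rw [one_mul, ← mul_div_cancel₀ (E h) h0]
      exact mul_mem hh (log h)
  · by_cases g0 : g = 0
    · simp [g0]
    · rw [one_mul]
      exact DvS_small V (log g) g0 hg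

lemma DvS_ord (hC : ∀ c, algebraMap ℂ K c ∈ V) [IsDiscreteValuationRing V] (E : Derivation F K K)
    (res0 : ∀ h ∈ V, V.valuation (E h) < 1) {q : K} (q0 : q ≠ 0) (q1 : V.valuation q < 1)
    (q2 : E q = q) : (∀ h, h ≠ 0 → V.valuation h ≠ 1 → V.valuation (E h / h) = 1) ∧
      ∃ π : K, V.valuation π < 1 ∧ V.valuation (π⁻¹ * E π) = 1 ∧ ∀ h ∈ V, π⁻¹ * E h ∈ V := by
  obtain ⟨π, hπ⟩ := IsDiscreteValuationRing.exists_irreducible V
  have π0 : (π : K) ≠ 0 := fun e => hπ.ne_zero (Subtype.ext e)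
  have π1 : V.valuation π < 1 :=
    (V.valuation_lt_one_iff π).1 (hπ.maximalIdeal_eq ▸ Ideal.mem_span_singleton_self π)
  have ord : ∀ h, h ≠ 0 → V.valuation h < 1 → ∃ n : K, V.valuation n = 1 ∧
      V.valuation (E h / h - n * (E π / π)) < 1 := fun h h0 hh => by
    obtain ⟨n, v, hv⟩ := IsDiscreteValuationRing.eq_unit_mul_pow_irreducible
      (x := ⟨h, (V.valuation_le_one_iff h).1 hh.le⟩) (fun e => h0 (congrArg Subtype.val e)) hπ
    obtain rfl : h = (v : V) * (π : K) ^ n := congrArg Subtype.val hv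
    have a1 := V.valuation_unit v
    refine ⟨n, ?_, ?_⟩
    · rw [← map_natCast (algebraMap ℂ K)]
      refine val_c V hC (Nat.cast_ne_zero.2 fun e => hh.ne ?_)
      rw [e, pow_zero, mul_one, a1]
    · rw [DvS_mul E (left_ne_zero_of_mul h0) (pow_ne_zero _ π0), DvS_pow E π0, add_sub_cancel_right,
        map_div₀, a1, div_one]
      exact res0 _ (v : V).2
  have one : V.valuation (E π / π) = 1 := by
    obtain ⟨n, a1, a2⟩ := ord q q0 q1
    rw [q2, div_self q0] at a2
    have := V.valuation.map_one_sub_of_lt a2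
    rwa [sub_sub_cancel, map_mul, a1, one_mul] at this
  have ld : ∀ h, h ≠ 0 → V.valuation h < 1 → V.valuation (E h / h) = 1 := fun h h0 hh => by
    obtain ⟨n, a1, a2⟩ := ord h h0 hh
    have a3 : V.valuation (n * (E π / π)) = 1 := by rw [map_mul, a1, one, one_mul]
    rw [← add_sub_cancel (n * (E π / π)) (E h / h),
      V.valuation.map_add_eq_of_lt_left (a3 ▸ a2), a3]
  refine ⟨fun h h0 hh => ?_, π, π1, by rw [← div_eq_inv_mul, one], fun h hh => ?_⟩
  · rcases hh.lt_or_gt with a1 | a1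
    · exact ld h h0 a1
    · have := ld h⁻¹ (inv_ne_zero h0) (by rw [map_inv₀]; exact inv_lt_one_of_one_lt₀ a1)
      rwa [DvS_inv, Valuation.map_neg] at this
  · have a1 := res0 h hh
    have a2 := (V.valuation_lt_one_iff ⟨_, (V.valuation_le_one_iff _).1 a1.le⟩).2 a1
    rw [hπ.maximalIdeal_eq, Ideal.mem_span_singleton] at a2
    obtain ⟨c, hc⟩ := a2
    rw [show E h = π * c from congrArg Subtype.val hc, inv_mul_cancel_left₀ π0]
    exact c.2

end

lemma DvS_pres {t a M s : ℕ} {w : Fin M → Option (Fin t)} {Θ : Pt t a → Fin M → ℂ} {PP : PT M t a}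
    {K : Type} [Field K] [Algebra ℂ K] {u : Fin M → K} {F : IntermediateField ℂ K}
    {lam : Fin s → Pt t a} {d : Fin s → Derivation ℂ K K} {f : Fin s → K} {β : Cht M t}
    (bx : BX w Θ PP u F lam d f) (hβ : Ch w β u) (l : Fin s) :
    ∀ h ∈ RF F (co β u), d l h ∈ RF F (co β u) := by
  have h0 : ∀ c : ℂ, algebraMap ℂ K c ∈ RF F (co β u) := fun c =>
    (RF F (co β u)).algebraMap_mem ⟨_, F.algebraMap_mem c⟩
  have h1 : ∀ P : CP M t, aeval (co β u) P ∈ RF F (co β u) := fun P => by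
    induction P using MvPolynomial.induction_on with
    | C c => rw [aeval_C]; exact h0 c
    | add p q hp hq => rw [map_add]; exact add_mem hp hq
    | mul_X p i hp => rw [map_mul, aeval_X]; exact mul_mem hp (Algebra.subset_adjoin ⟨i, rfl⟩)
  intro h hh
  induction hh using Algebra.adjoin_induction with
  | mem x hx =>
    obtain ⟨x, rfl⟩ := hx
    rw [bx.vel l β hβ x]
    exact sum_mem fun i _ => mul_mem (h0 _) (h1 _)
  | algebraMap c => rw [show d l (algebraMap F K c) = 0 from (bx.cst _).1 c.2 l]; exact zero_mem _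
  | add x y _ _ hx hy => rw [map_add]; exact add_mem hx hy
  | mul x y h h' hx hy =>
    rw [Derivation.leibniz, smul_eq_mul, smul_eq_mul]
    exact add_mem (mul_mem h hy) (mul_mem h' hx)

theorem sDvS (h1 : SNoe0) (h2 : STame) : SDvS := by
  intro t a M w Θ PP K _ _ u F r lam d f β V y q l₀ bx dt
  have le := fun x (hx : x ∈ V) => (V.valuation_le_one_iff x).2 hx
  have hF : ∀ c : F, algebraMap F K c ∈ V := fun c => dt.fV c c.2
  have hC : ∀ c, algebraMap ℂ K c ∈ V := fun c => dt.fV _ (F.algebraMap_mem c)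
  have pres := DvS_pres bx dt.ch
  have RV : ∀ x ∈ RF F (co β u), x ∈ V := fun x hx => by
    rw [RF, Algebra.adjoin_range_eq_range_aeval] at hx
    obtain ⟨P, rfl⟩ := hx
    exact DvS_mem V hF dt.cV P
  have q0 : q ≠ 0 := fun e => by simpa [e] using dt.tr
  let z : Fin (r + 1) → K := Fin.cons q (co β u ∘ y)
  have zR : ∀ i, z i ∈ RF F (co β u) :=
    Fin.cases dt.mem fun j => Algebra.subset_adjoin ⟨y j, rfl⟩
  have zV : ∀ i, z i ∈ V := fun i => RV _ (zR i)
  have hv : ∀ P : MvPolynomial (Fin (r + 1)) F, ¬ X 0 ∣ P → V.valuation (aeval z P) = 1 :=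
    fun P hP => by
      by_contra hn
      obtain ⟨P₀, a1, a2⟩ := DvS_red V hF zV 0 Fin.succ Fin.eq_zero_or_eq_succ dt.lt hP
        ((le _ (DvS_mem V hF zV P)).lt_of_ne hn)
      exact a2.ne (dt.res P₀ a1)
  have zi : AlgebraicIndependent F z := by
    by_contra hn
    obtain ⟨P₀, a1, a2⟩ := DvS_dep V hF zV 0 Fin.succ Fin.eq_zero_or_eq_succ dt.lt q0 hn
    exact a2.ne (dt.res P₀ a1)
  have td := bx.tb.cardinalMk_eq_trdeg
  have tb : IsTranscendenceBasis F z := zi.isTranscendenceBasis_of_trdeg_le_of_finite td.ge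
  have : CharZero K := charZero_of_injective_algebraMap (algebraMap ℂ K).injective
  have := tb.isAlgebraic_field
  have : Algebra.EssFiniteType ℂ K := IntermediateField.fg_top_iff.1 bx.fg
  have : Algebra.EssFiniteType F K := .of_comp ℂ _ _
  have : Algebra.EssFiniteType (IntermediateField.adjoin F (Set.range z)) K := .of_comp F _ _
  have dvr := (h1 F K r z zi Algebra.finite_of_essFiniteType_of_isAlgebraic).dvr V
    ⟨DvS_mem V hF zV, X 0, X_prime, fun P => ⟨fun h => by_contra fun hn => h.ne (hv P hn), by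
      rintro ⟨Q, rfl⟩
      rw [map_mul, map_mul, aeval_X]
      exact mul_lt_one_of_lt_of_le dt.lt (le _ (DvS_mem V hF zV Q))⟩⟩
  have alg : ∀ h ∈ V, ∃ P : MvPolynomial (Option (Fin r)) F, P ≠ 0 ∧
      V.valuation (aeval (fun o : Option (Fin r) => o.elim h (co β u ∘ y)) P) < 1 := fun h hh =>
    DvS_dep V hF (x := fun o : Option (Option (Fin r)) => o.elim q fun o => o.elim h (co β u ∘ y))
      (by rintro (_ | _ | j); exacts [zV 0, hh, dt.cV _]) none some
      (by rintro (_ | j); exacts [Or.inl rfl, Or.inr ⟨j, rfl⟩]) dt.lt q0 fun e => by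
        have := e.cardinalMk_le_trdeg
        rw [← td, Cardinal.mk_fintype, Cardinal.mk_fintype, Nat.cast_le] at this
        simp at this
  have log : ∀ E : Derivation F K K, (∀ i, E (z i) ∈ V) → E q / q ∈ V → ∀ x, E x / x ∈ V :=
    fun E a1 a2 => DvS_log V h2 hC (E.restrictScalars ℂ) (IntermediateField.adjoin F (Set.range z))
      (DvS_rat V hF zV 0 q0 hv E a1 a2)
  choose e he using fun i => der_exists (M := K) tb (Pi.single i 1)
  have eV : ∀ i j, e i (z j) ∈ V := fun i j => by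
    rw [he, Pi.single_apply]
    split_ifs
    exacts [one_mem _, zero_mem _]
  have e0 : e 0 q = 1 := (he 0 0).trans (by simp)
  obtain ⟨E, hE⟩ : ∃ E : Derivation F K K, ∀ x, E x = q * e 0 x := ⟨q • e 0, fun _ => rfl⟩
  have log0 := log E (fun i => hE _ ▸ mul_mem (zV 0) (eV 0 i)) (by simp [hE, e0, q0])
  obtain ⟨S, hS, ex⟩ : ∃ S : Fin (r + 1) → K → K, (∀ l x, S l x / x ∈ V) ∧
      ∀ l x, d l x = d l q * e 0 x + S l x := by
    refine ⟨fun l x => ∑ j : Fin r, d l (z j.succ) * e j.succ x, fun l x => ?_, fun l x => ?_⟩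
    · rw [sum_div]
      refine sum_mem fun j _ => ?_
      rw [mul_div_assoc]
      exact mul_mem (RV _ (pres l _ (zR _))) (log _ (eV _) (by
        rw [show e j.succ q = 0 from (he j.succ 0).trans (by simp), zero_div]
        exact zero_mem _) x)
    · exact (DvS_exp tb e he (d l) (fun c => (bx.cst _).1 c.2 l) x).trans (Fin.sum_univ_succ _)
  have res0 : ∀ h ∈ V, V.valuation (E h) < 1 := fun h hh => by
    obtain ⟨P, a1, a2⟩ := alg h hh
    refine DvS_res V hC hF (fun j => dt.cV _) dt.res (E.restrictScalars ℂ) E.map_algebraMap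
      (fun i => (hE _).trans ?_) log0 hh a1 a2
    rw [show e 0 (co β u (y i)) = 0 from (he 0 i.succ).trans (by simp), mul_zero]
  obtain ⟨ld, π, π1, π2, π3⟩ := DvS_ord V hC E res0 q0 dt.lt (by rw [hE, e0, mul_one])
  refine ⟨dvr, pres, fun h h0 hh => ?_, ⟨(π⁻¹ • E).restrictScalars ℂ,
    fun x hx => (π⁻¹ • E).map_algebraMap ⟨x, hx⟩, π3, π, π1, π2⟩, alg, fun h hh hl l l' => ?_⟩
  · have a2 : V.valuation (d l₀ q * (E h / h)) = 1 := by rw [map_mul, dt.tr, ld h h0 hh, one_mul]
    have a3 : V.valuation (q * (S l₀ h / h)) < 1 := by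
      rw [map_mul]
      exact mul_lt_one_of_lt_of_le dt.lt (le _ (hS l₀ h))
    have a4 := V.valuation.map_add_eq_of_lt_left (a2 ▸ a3)
    rwa [a2, show d l₀ q * (E h / h) + q * (S l₀ h / h) = d l₀ h * q / h by
      rw [ex l₀ h, hE]; ring, map_div₀, map_mul, div_eq_one_iff_eq (by simpa using h0)] at a4
  · by_cases h0 : h = 0
    · simp [h0]
    rw [show d l h * d l' q - d l' h * d l q = S l h * d l' q - S l' h * d l q by
      rw [ex l h, ex l' h]; ring]
    refine V.valuation.map_sub_lt ?_ ?_ <;> rw [map_mul] <;>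
      exact mul_lt_one_of_lt_of_le (DvS_small V (hS _ h) h0 hl) (le _ (RV _ (pres _ _ dt.mem)))

end Pool.Agent.MP_c69980_ag.H43

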